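import Pool.Agent.helper57.NikodymDefs
import Pool.Agent.helper57.BlockNikodym
import Pool.Agent.helper57.BlockNotTB
import Pool.Agent.helper57.BlockKatetov
import Pool.Agent.helper57.BlockConcrete

set_option autoImplicit false

namespace Pool.Agent.Results.MP_64e5f1_lc.KatetovNikodym

open Set Pool.Agent.Helper57

/-- codes of the initial segments of a 0-1 sequence -/
def code (x : ℕ → Bool) (n : ℕ) : ℕ := Encodable.encode (List.ofFn (fun i : Fin n => x i))

theorem code_inj {x y : ℕ → Bool} {n k : ℕ} (h : code x n = code y k) :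
    n = k ∧ ∀ i, i < n → x i = y i := by
  have h1 := Encodable.encode_injective h
  have h2 : n = k := by
    have := congrArg List.length h1
    simpa using this
  subst h2
  refine ⟨rfl, fun i hi => ?_⟩
  have := List.ofFn_injective h1
  exact congrFun this ⟨i, hi⟩

/-- the almost disjoint family -/
def branch (x : ℕ → Bool) : Set ℕ := range (code x)

theorem branch_infinite (x : ℕ → Bool) : (branch x).Infinite :=
  Set.infinite_range_of_injective (fun _ _ h => (code_inj h).1)

theorem branch_sdiff {x y : ℕ → Bool} (h : x ≠ y) : (branch y \ branch x).Infinite := by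
  obtain ⟨k, hk⟩ := Function.ne_iff.1 h
  have h1 : (code y '' Ioi k).Infinite :=
    (Set.Ioi_infinite k).image (fun _ _ _ _ h => (code_inj h).1)
  refine h1.mono ?_
  rintro _ ⟨n, hn, rfl⟩
  refine ⟨⟨n, rfl⟩, ?_⟩
  rintro ⟨j, hj⟩
  obtain ⟨rfl, h2⟩ := code_inj hj
  exact hk (h2 k hn)

/-- the family of ideals -/
noncomputable def fam (x : ℕ → Bool) : OmegaIdeal := Concrete.sys.ideal (branch x) (branch_infinite x)

theorem fam_not_le {x y : ℕ → Bool} (h : x ≠ y) : ¬ KatetovLE (fam x) (fam y) :=
  Concrete.sys.not_katetov _ _ _ _ (branch_sdiff h)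

theorem fam_injective : Function.Injective fam := by
  intro x y h
  by_contra hne
  apply fam_not_le hne
  rw [h]
  exact ⟨id, fun A hA => hA⟩

/-- There is a family of `𝔠` many pairwise Katětov incomparable non-pathological ideals on `ω`, each of
which has the Nikodym property and is not totally bounded. -/
theorem result : ∃ 𝓕 : Set OmegaIdeal, Cardinal.mk 𝓕 = Cardinal.continuum ∧
    (∀ I ∈ 𝓕, I.NonPathological ∧ NikodymProperty I.algebra ∧ ¬ I.TotallyBounded) ∧
    ∀ I ∈ 𝓕, ∀ J ∈ 𝓕, I ≠ J → ¬ KatetovLE I J ∧ ¬ KatetovLE J I := by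
  refine ⟨range fam, ?_, ?_, ?_⟩
  · rw [Cardinal.mk_range_eq _ fam_injective]
    simp
  · rintro _ ⟨x, rfl⟩
    exact ⟨Concrete.sys.ideal_nonpath _ _, Concrete.sys.nikodym _ _,
      Concrete.sys.not_totallyBounded _ _⟩
  · rintro _ ⟨x, rfl⟩ _ ⟨y, rfl⟩ h
    have hxy : x ≠ y := fun hxy => h (by rw [hxy])
    exact ⟨fam_not_le hxy, fam_not_le hxy.symm⟩

end Pool.Agent.Results.MP_64e5f1_lc.KatetovNikodym
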